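import Pool.Agent.L5helper76.Fac.Space
import Pool.Agent.Helper475.Miranda

/-! Every factor which separates the two constant functions has infinite entropy. -/

open Topology Filter Set
open scoped NNReal ENNReal Uniformity

noncomputable section

namespace Pool.Agent.L5helper76.Fac

def zeroL : Lip := const 0 ⟨le_rfl, zero_le_one⟩
def oneL : Lip := const 1 ⟨zero_le_one, le_rfl⟩

lemma near_const (g : X → ℝ) (hg : Continuous g) (c : ℝ) (hc : c ∈ Icc (0:ℝ) 1) (ε : ℝ)
    (hε : 0 < ε) :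
    ∃ R : ℕ, ∀ R' ≥ R, ∀ f : Lip, (∀ t, |t| ≤ (R':ℝ) → f.1 t = c) →
      |g (f, 0) - g (const c hc, 0)| < ε := by
  by_contra hcon
  push Not at hcon
  choose R' hR' F hF hF' using hcon
  have h1 : Tendsto F atTop (𝓝 (const c hc)) := by
    refine tendsto_subtype_rng.2 (tendsto_pi_nhds.2 fun t => ?_)
    refine tendsto_const_nhds.congr' ?_
    obtain ⟨n, hn⟩ := exists_nat_ge |t|
    filter_upwards [eventually_ge_atTop n] with m hm
    refine (hF m t (hn.trans ?_)).symm
    exact_mod_cast hm.trans (hR' m)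
  have h2 : Tendsto (fun n => g (F n, 0)) atTop (𝓝 (g (const c hc, 0))) :=
    (hg.tendsto _).comp (h1.prodMk_nhds tendsto_const_nhds)
  have h3 := (Metric.tendsto_nhds.1 h2 ε hε).exists
  obtain ⟨n, hn⟩ := h3
  exact absurd hn (not_lt.2 (hF' n))

/-- clamped extension -/
def cl (m : ℕ) (z : Fin m → ℝ) (i : ℕ) : ℝ := if h : i < m then max 0 (min 1 (z ⟨i, h⟩)) else 0

lemma cl_mem (m : ℕ) (z : Fin m → ℝ) (i : ℕ) : cl m z i ∈ Icc (0:ℝ) 1 := by
  unfold cl
  split_ifs
  · exact ⟨le_max_left _ _, max_le zero_le_one (min_le_left _ _)⟩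
  · exact ⟨le_rfl, zero_le_one⟩

lemma cl_cont (m : ℕ) : Continuous (cl m) := by
  refine continuous_pi fun i => ?_
  unfold cl
  split_ifs with h
  · exact continuous_const.max (continuous_const.min (continuous_apply _))
  · exact continuous_const

/-- the function with given values on the blocks -/
def bl (R m : ℕ) (z : Fin m → ℝ) : Lip :=
  ⟨blk R ((2 * R + 2 : ℕ) : ℝ) m (cl m z), blk_lip _ _ _ _ (cl_mem m z),
    blk_mem _ _ _ _ (cl_mem m z)⟩

lemma bl_cont (R m : ℕ) : Continuous (bl R m) := by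
  refine Continuous.subtype_mk (continuous_pi fun t => ?_) _
  exact (blk_cont _ _ m t).comp (cl_cont m)

lemma flow_bl (R m : ℕ) (z : Fin m → ℝ) (j : Fin m) :
    ∃ f : Lip, flow (((j : ℕ) * (2 * R + 2) : ℕ) : ℝ) (bl R m z, 0) = (f, 0) ∧
      ∀ t, |t| ≤ (R:ℝ) → f.1 t = max 0 (min 1 (z j)) := by
  refine ⟨shift (((j : ℕ) * (2 * R + 2) : ℕ) : ℝ) (bl R m z), ?_, fun t ht => ?_⟩
  · rw [flow_apply]
    refine Prod.ext rfl ?_
    simp only [zero_add]
    rw [AddCircle.coe_eq_zero_iff]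
    exact ⟨((j : ℕ) * (2 * R + 2) : ℕ), by simp⟩
  · rw [shift_val]
    have h1 := blk_val (R:ℝ) ((2 * R + 2 : ℕ) : ℝ) (by push_cast; rfl) (Nat.cast_nonneg R) m
      (cl m z) (cl_mem m z) j j.2 (t + (((j : ℕ) * (2 * R + 2) : ℕ) : ℝ)) (by
        have : t + (((j : ℕ) * (2 * R + 2) : ℕ) : ℝ) - (j : ℕ) * ((2 * R + 2 : ℕ) : ℝ) = t := by
          push_cast; ring
        rw [this]; exact ht)
    refine h1.trans ?_
    simp [cl]

section

variable {Y : Type*} [MetricSpace Y] [CompactSpace Y] (ψ : Flow ℝ Y) (π : X → Y)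

omit [CompactSpace Y] in
lemma iterate_flow (n : ℕ) (y : Y) : (ψ 1)^[n] y = ψ n y := by
  induction n with
  | zero => simp
  | succ n ih =>
    rw [Function.iterate_succ_apply', ih, ← Flow.map_add]
    congr 1
    push_cast; ring

/-- all block values are attained -/
lemma exists_values (hπ : Continuous π) (he : ∀ t x, π (flow t x) = ψ t (π x))
    (hne : π (zeroL, 0) ≠ π (oneL, 0)) :
    ∃ (a : ℝ) (R : ℕ), 0 < a ∧ ∀ (m : ℕ) (c : Fin m → ℝ), (∀ i, c i ∈ Icc (a / 4) (3 * a / 4)) →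
      ∃ y : Y, ∀ j : Fin m, dist (ψ (((j : ℕ) * (2 * R + 2) : ℕ) : ℝ) y) (π (zeroL, 0)) = c j := by
  set g : X → ℝ := fun x => dist (π x) (π (zeroL, 0)) with hg
  have hgc : Continuous g := hπ.dist continuous_const
  set a := g (oneL, 0) with ha
  have ha0 : 0 < a := dist_pos.2 hne.symm
  have hg0 : g (zeroL, 0) = 0 := dist_self _
  obtain ⟨R0, hR0⟩ := near_const g hgc 0 ⟨le_rfl, zero_le_one⟩ (a / 4) (by positivity)
  obtain ⟨R1, hR1⟩ := near_const g hgc 1 ⟨zero_le_one, le_rfl⟩ (a / 4) (by positivity)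
  set R := max R0 R1 with hR
  refine ⟨a, R, ha0, fun m c hc => ?_⟩
  set F : (Fin m → ℝ) → (Fin m → ℝ) := fun z j =>
    g (flow (((j : ℕ) * (2 * R + 2) : ℕ) : ℝ) (bl R m z, 0)) - c j with hF
  have hFc : Continuous F := by
    refine continuous_pi fun j => Continuous.sub ?_ continuous_const
    refine hgc.comp ?_
    exact (flow.continuous_toFun _).comp ((bl_cont R m).prodMk continuous_const)
  obtain ⟨z, hz, hz0⟩ := Pool.Agent.Helper475.Miranda.poincare_miranda m F hFc.continuousOn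
    (fun z hz j hj => by
      obtain ⟨f, hf1, hf2⟩ := flow_bl R m z j
      simp only [hF]
      rw [hf1]
      have h1 := hR0 R (le_max_left _ _) f (fun t ht => by rw [hf2 t ht, hj]; simp)
      change |g (f, 0) - g (zeroL, 0)| < a / 4 at h1
      rw [hg0, sub_zero] at h1
      have h2 := (abs_lt.1 h1).2
      have h3 := (hc j).1
      linarith)
    (fun z hz j hj => by
      obtain ⟨f, hf1, hf2⟩ := flow_bl R m z j
      simp only [hF]
      rw [hf1]
      have h1 := hR1 R (le_max_right _ _) f (fun t ht => by rw [hf2 t ht, hj]; simp)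
      change |g (f, 0) - a| < a / 4 at h1
      have h2 := (abs_lt.1 h1).1
      have h3 := (hc j).2
      linarith)
  refine ⟨π (bl R m z, 0), fun j => ?_⟩
  have h1 := congrFun hz0 j
  simp only [hF, Pi.zero_apply] at h1
  rw [← he]
  exact sub_eq_zero.1 h1

omit [CompactSpace Y] in
lemma card_cover (a : ℝ) (R : ℕ) (ha : 0 < a) (p : Y)
    (H : ∀ (m : ℕ) (c : Fin m → ℝ), (∀ i, c i ∈ Icc (a / 4) (3 * a / 4)) →
      ∃ y : Y, ∀ j : Fin m, dist (ψ (((j : ℕ) * (2 * R + 2) : ℕ) : ℝ) y) p = c j)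
    (k : ℕ) (hk : 0 < k) (m : ℕ) :
    ((((k + 1) ^ m : ℕ) : ℕ∞)) ≤ Dynamics.coverMincard (ψ 1) univ
      {q : Y × Y | dist q.1 q.2 < a / (4 * k)} (m * (2 * R + 2)) := by
  unfold Dynamics.coverMincard
  refine le_iInf fun s => le_iInf fun hs => ?_
  have hk' : (0:ℝ) < k := Nat.cast_pos.2 hk
  set c : (Fin m → Fin (k + 1)) → Fin m → ℝ := fun σ j => a / 4 + (σ j : ℕ) * (a / (2 * k)) with hc
  have hcm : ∀ σ j, c σ j ∈ Icc (a / 4) (3 * a / 4) := by
    intro σ j
    have h1 : ((σ j : ℕ) : ℝ) ≤ k := by exact_mod_cast Nat.lt_succ_iff.1 (σ j).2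
    refine ⟨?_, ?_⟩
    · simp only [hc]
      have : 0 ≤ ((σ j : ℕ) : ℝ) * (a / (2 * k)) := by positivity
      linarith
    · simp only [hc]
      have : ((σ j : ℕ) : ℝ) * (a / (2 * k)) ≤ k * (a / (2 * k)) := by gcongr
      have e : (k:ℝ) * (a / (2 * k)) = a / 2 := by field_simp
      linarith
  choose y hy using fun σ => H m (c σ) (hcm σ)
  have hs' : ∀ σ, ∃ q ∈ s, ∀ i < m * (2 * R + 2),
      dist ((ψ 1)^[i] (y σ)) ((ψ 1)^[i] q) < a / (4 * k) := by
    intro σ
    obtain ⟨q, hq, hq'⟩ := hs (mem_univ (y σ))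
    exact ⟨q, hq, fun i hi => Dynamics.mem_dynEntourage.1 hq' i hi⟩
  choose q hq hq' using hs'
  have hinj : Function.Injective (fun σ => (⟨q σ, hq σ⟩ : s)) := by
    intro σ σ' h
    have h0 : q σ = q σ' := congrArg Subtype.val h
    funext j
    have hjm : (j : ℕ) * (2 * R + 2) < m * (2 * R + 2) :=
      Nat.mul_lt_mul_of_pos_right j.2 (by omega)
    have h1 := hq' σ _ hjm
    have h2 := hq' σ' _ hjm
    rw [← h0] at h2
    rw [iterate_flow, iterate_flow] at h1 h2
    have h3 : |c σ j - c σ' j| < a / (4 * k) + a / (4 * k) := by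
      rw [← hy σ j, ← hy σ' j]
      refine lt_of_le_of_lt (abs_dist_sub_le _ _ _) ?_
      refine lt_of_le_of_lt (dist_triangle_right _ _ (ψ (((j : ℕ) * (2 * R + 2) : ℕ) : ℝ) (q σ))) ?_
      exact add_lt_add h1 h2
    have h4 : c σ j - c σ' j = (((σ j : ℕ) : ℝ) - (σ' j : ℕ)) * (a / (2 * k)) := by
      simp only [hc]; ring
    have h5 : a / (4 * k) + a / (4 * k) = 1 * (a / (2 * k)) := by field_simp; norm_num
    have h6 : 0 < a / (2 * k) := by positivity
    rw [h4, h5, abs_mul, abs_of_pos h6] at h3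
    have h7 : |((σ j : ℕ) : ℝ) - (σ' j : ℕ)| < 1 := lt_of_mul_lt_mul_right h3 h6.le
    have h8 : |((σ j : ℕ) : ℤ) - (σ' j : ℕ)| < 1 := by exact_mod_cast h7
    rw [Int.abs_lt_one_iff, sub_eq_zero] at h8
    exact Fin.ext (by exact_mod_cast h8)
  have h1 := Fintype.card_le_of_injective _ hinj
  simp only [Fintype.card_fun, Fintype.card_fin, Fintype.card_coe] at h1
  exact_mod_cast h1

theorem entropy_top (hπ : Continuous π) (he : ∀ t x, π (flow t x) = ψ t (π x))
    (hne : π (zeroL, 0) ≠ π (oneL, 0)) : Dynamics.coverEntropy (ψ 1) (univ : Set Y) = ⊤ := by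
  obtain ⟨a, R, ha, H⟩ := exists_values ψ π hπ he hne
  have key : ∀ k : ℕ, 0 < k → ((Real.log (k + 1) / (2 * R + 2 : ℕ) : ℝ) : EReal) ≤
      Dynamics.coverEntropy (ψ 1) (univ : Set Y) := by
    intro k hk
    have hk' : (0:ℝ) < k := Nat.cast_pos.2 hk
    have hU : {q : Y × Y | dist q.1 q.2 < a / (4 * k)} ∈ 𝓤 Y :=
      Metric.dist_mem_uniformity (by positivity)
    refine le_trans ?_ (Dynamics.coverEntropyEntourage_le_coverEntropy (ψ 1) univ hU)
    unfold Dynamics.coverEntropyEntourage ExpGrowth.expGrowthSup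
    refine Filter.le_limsup_of_frequently_le ?_
    rw [Filter.frequently_atTop]
    intro n
    refine ⟨(n + 1) * (2 * R + 2), by nlinarith, ?_⟩
    have h1 := card_cover ψ a R ha _ H k hk (n + 1)
    have h2 : (((k + 1 : ℕ) : ℝ≥0∞)) ^ (n + 1) ≤
        ((Dynamics.coverMincard (ψ 1) univ
      {q : Y × Y | dist q.1 q.2 < a / (4 * k)} ((n + 1) * (2 * R + 2)) : ℕ∞) : ℝ≥0∞) := by
      have := ENat.toENNReal_mono h1
      refine le_trans (le_of_eq ?_) this
      simp
    have h3 : ENNReal.log ((((k + 1 : ℕ) : ℝ≥0∞)) ^ (n + 1)) =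
        (((n + 1 : ℕ) * Real.log (k + 1) : ℝ) : EReal) := by
      have e1 : (((k + 1 : ℕ) : ℝ≥0∞)).toReal = (k:ℝ) + 1 := by
        rw [ENNReal.toReal_natCast]; push_cast; rfl
      rw [ENNReal.log_pow, ENNReal.log_pos_real (by simp) (by simp), e1, EReal.coe_mul,
        EReal.coe_natCast]
    have h4 := ENNReal.log_monotone h2
    rw [h3] at h4
    refine le_trans (le_of_eq ?_) (EReal.monotone_div_right_of_nonneg (by positivity) h4)
    have e : ((((n + 1) * (2 * R + 2) : ℕ)) : EReal) =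
        (((((n + 1) * (2 * R + 2) : ℕ)) : ℝ) : EReal) := EReal.coe_natCast.symm
    change _ = _ / _
    rw [e, ← EReal.coe_div]
    congr 1
    push_cast
    field_simp
  rw [EReal.eq_top_iff_forall_lt]
  intro r
  have hlim : Tendsto (fun k : ℕ => Real.log (k + 1) / (2 * R + 2 : ℕ)) atTop atTop := by
    refine Tendsto.atTop_div_const (by positivity) ?_
    exact Real.tendsto_log_atTop.comp (tendsto_natCast_atTop_atTop.atTop_add tendsto_const_nhds)
  obtain ⟨k, hk1, hk2⟩ := ((hlim.eventually_gt_atTop r).and (eventually_gt_atTop 0)).exists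
  refine lt_of_lt_of_le ?_ (key k hk2)
  exact_mod_cast hk1

end

end Pool.Agent.L5helper76.Fac
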