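import Mathlib

/-! The translation flow on the space of `1`-Lipschitz functions with values in `[0,1]`, times a
periodic orbit. -/

open Topology Filter Set
open scoped NNReal

noncomputable section

namespace Pool.Agent.L5helper76.Fac

/-- the `1`-Lipschitz functions `ℝ → [0,1]` with the topology of pointwise convergence -/
def Lip : Type := {f : ℝ → ℝ // LipschitzWith 1 f ∧ ∀ t, f t ∈ Icc (0:ℝ) 1}

instance : TopologicalSpace Lip := inferInstanceAs (TopologicalSpace (Subtype _))

instance : T2Space Lip := inferInstanceAs (T2Space (Subtype _))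

instance : CompactSpace Lip := by
  have h1 : IsCompact {f : ℝ → ℝ | ∀ t, f t ∈ Icc (0:ℝ) 1} := by
    have := isCompact_univ_pi (fun _ : ℝ => isCompact_Icc (a := (0:ℝ)) (b := 1))
    simpa [Set.pi] using this
  have h2 : IsClosed {f : ℝ → ℝ | LipschitzWith 1 f} := isClosed_setOfPred_lipschitzWith 1
  have h3 : IsCompact {f : ℝ → ℝ | LipschitzWith 1 f ∧ ∀ t, f t ∈ Icc (0:ℝ) 1} :=
    h1.inter_left h2
  exact isCompact_iff_compactSpace.1 h3

lemma continuous_val : Continuous (fun f : Lip => f.1) := continuous_subtype_val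

/-- evaluation is jointly continuous -/
lemma continuous_eval : Continuous fun p : ℝ × Lip => p.2.1 p.1 :=
  continuous_prod_of_continuous_lipschitzWith _ 1
    (fun t => (continuous_apply t).comp continuous_val) fun f => f.2.1

instance : TopologicalSpace.MetrizableSpace Lip := by
  set r : Lip → (ℚ → ℝ) := fun f q => f.1 q with hr
  have hc : Continuous r := continuous_pi fun q => (continuous_apply (q:ℝ)).comp continuous_val
  have hi : Function.Injective r := by
    intro f g hfg
    apply Subtype.ext
    have hd : DenseRange (fun q : ℚ => (q : ℝ)) := Rat.denseRange_cast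
    exact hd.equalizer f.2.1.continuous g.2.1.continuous hfg
  exact (hc.isClosedEmbedding hi).isEmbedding.metrizableSpace

/-- translation -/
def shift (t : ℝ) (f : Lip) : Lip :=
  ⟨fun s => f.1 (s + t), LipschitzWith.of_dist_le_mul fun a b => by
    have := f.2.1.dist_le_mul (a + t) (b + t)
    rwa [dist_add_right] at this, fun s => f.2.2 _⟩

lemma shift_val (t : ℝ) (f : Lip) (s : ℝ) : (shift t f).1 s = f.1 (s + t) := rfl

lemma continuous_shift : Continuous fun p : ℝ × Lip => shift p.1 p.2 := by
  refine Continuous.subtype_mk (continuous_pi fun s => ?_) _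
  exact continuous_eval.comp ((continuous_const.add continuous_fst).prodMk continuous_snd)

/-- the phase space -/
abbrev X : Type := Lip × AddCircle (1:ℝ)

/-- the flow -/
def flow : Flow ℝ X where
  toFun t x := (shift t x.1, x.2 + (t : AddCircle (1:ℝ)))
  cont' := by
    refine Continuous.prodMk (continuous_shift.comp (continuous_fst.prodMk
      (continuous_fst.comp continuous_snd))) ?_
    exact (continuous_snd.comp continuous_snd).add
      ((AddCircle.continuous_mk' (1:ℝ)).comp continuous_fst)
  map_add' t₁ t₂ x := by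
    refine Prod.ext (Subtype.ext (funext fun s => ?_)) ?_
    · change x.1.1 (s + (t₁ + t₂)) = x.1.1 (s + t₁ + t₂)
      rw [add_assoc]
    · change x.2 + ((t₁ + t₂ : ℝ) : AddCircle (1:ℝ)) = x.2 + (t₂ : AddCircle (1:ℝ)) + t₁
      rw [add_comm t₁ t₂, AddCircle.coe_add, add_assoc]
  map_zero' x := by
    refine Prod.ext (Subtype.ext (funext fun s => ?_)) ?_
    · simp only [shift_val, add_zero]
    · simp

lemma flow_apply (t : ℝ) (x : X) : flow t x = (shift t x.1, x.2 + (t : AddCircle (1:ℝ))) := rfl

theorem flow_fixedPointFree : ∀ x : X, ∃ t : ℝ, flow t x ≠ x := by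
  intro x
  refine ⟨1/2, fun h => ?_⟩
  have h2 := congrArg Prod.snd h
  rw [flow_apply] at h2
  simp only [add_eq_left] at h2
  rw [AddCircle.coe_eq_zero_iff] at h2
  obtain ⟨n, hn⟩ := h2
  rw [zsmul_eq_mul, mul_one] at hn
  have h3 : (2 * n : ℝ) = 1 := by linarith
  have h4 : (2 * n : ℤ) = 1 := by exact_mod_cast h3
  omega

/-- constants -/
def const (c : ℝ) (hc : c ∈ Icc (0:ℝ) 1) : Lip := ⟨fun _ => c, LipschitzWith.const c |>.weaken zero_le_one, fun _ => hc⟩

/-- the trapezoid -/
def trap (R : ℝ) (t : ℝ) : ℝ := max 0 (min 1 (R + 1 - |t|))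

lemma trap_nonneg (R t : ℝ) : 0 ≤ trap R t := le_max_left _ _
lemma trap_le (R t : ℝ) : trap R t ≤ 1 := max_le zero_le_one (min_le_left _ _)
lemma trap_one {R t : ℝ} (h : |t| ≤ R) : trap R t = 1 := by
  unfold trap; rw [min_eq_left (by linarith), max_eq_right zero_le_one]
lemma trap_zero {R t : ℝ} (h : R + 1 ≤ |t|) : trap R t = 0 := by
  unfold trap
  exact max_eq_left ((min_le_right _ _).trans (by linarith))

lemma trap_lip (R : ℝ) : LipschitzWith 1 (trap R) := by
  have h1 : LipschitzWith 1 fun t : ℝ => R + 1 - |t| := by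
    refine LipschitzWith.of_dist_le_mul fun a b => ?_
    rw [Real.dist_eq, Real.dist_eq, NNReal.coe_one, one_mul]
    have : R + 1 - |a| - (R + 1 - |b|) = -(|a| - |b|) := by ring
    rw [this, abs_neg]
    exact abs_abs_sub_abs_le_abs_sub a b
  have h2 : LipschitzWith 1 fun t : ℝ => min 1 (R + 1 - |t|) := by
    have := (LipschitzWith.const (1:ℝ) (α := ℝ)).min h1
    simpa using this
  have := (LipschitzWith.const (0:ℝ) (α := ℝ)).max h2
  rw [max_eq_right (zero_le_one (α := ℝ≥0))] at this
  exact this

/-- the blocks -/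
def blk (R L : ℝ) : ℕ → (ℕ → ℝ) → ℝ → ℝ
  | 0, _, _ => 0
  | m + 1, z, t => max (blk R L m z t) (z m * trap R (t - m * L))

lemma blk_mem (R L : ℝ) (m : ℕ) (z : ℕ → ℝ) (hz : ∀ i, z i ∈ Icc (0:ℝ) 1) (t : ℝ) :
    blk R L m z t ∈ Icc (0:ℝ) 1 := by
  induction m with
  | zero => simp [blk]
  | succ m ih =>
    simp only [blk]
    refine ⟨le_max_of_le_left ih.1, max_le ih.2 ?_⟩
    exact mul_le_one₀ (hz m).2 (trap_nonneg _ _) (trap_le _ _)

lemma blk_lip (R L : ℝ) (m : ℕ) (z : ℕ → ℝ) (hz : ∀ i, z i ∈ Icc (0:ℝ) 1) :
    LipschitzWith 1 (blk R L m z) := by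
  induction m with
  | zero => exact LipschitzWith.const (0:ℝ) |>.weaken zero_le_one
  | succ m ih =>
    have h1 : LipschitzWith 1 fun t : ℝ => z m * trap R (t - m * L) := by
      refine LipschitzWith.of_dist_le_mul fun a b => ?_
      have := (trap_lip R).dist_le_mul (a - m * L) (b - m * L)
      rw [Real.dist_eq, Real.dist_eq, NNReal.coe_one, one_mul] at *
      rw [← mul_sub, abs_mul, abs_of_nonneg (hz m).1]
      have e : a - m * L - (b - m * L) = a - b := by ring
      rw [e] at this
      calc z m * |trap R (a - m * L) - trap R (b - m * L)| ≤ 1 * |a - b| :=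
            mul_le_mul (hz m).2 this (abs_nonneg _) zero_le_one
        _ = _ := one_mul _
    have := ih.max h1
    rw [max_self] at this
    exact this

lemma blk_val (R L : ℝ) (hL : 2 * R + 2 ≤ L) (hR : 0 ≤ R) (m : ℕ) (z : ℕ → ℝ)
    (hz : ∀ i, z i ∈ Icc (0:ℝ) 1) (j : ℕ) (hj : j < m) (t : ℝ) (ht : |t - j * L| ≤ R) :
    blk R L m z t = z j := by
  induction m with
  | zero => omega
  | succ m ih =>
    simp only [blk]
    by_cases hjm : j = m
    · subst hjm
      rw [trap_one ht, mul_one]
      refine max_eq_right ?_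
      have : ∀ k ≤ j, blk R L k z t = 0 := by
        intro k hk
        induction k with
        | zero => rfl
        | succ k ihk =>
          simp only [blk]
          rw [ihk (by omega), trap_zero, mul_zero, max_self]
          have h1 : (k:ℝ) + 1 ≤ j := by exact_mod_cast hk
          have h2 : L ≤ (j - k) * L := by nlinarith
          have h3 := abs_le.1 ht
          have h4 : L - R ≤ t - k * L := by nlinarith
          exact le_trans (by linarith) (le_trans h4 (le_abs_self _))
      rw [this j le_rfl]
      exact (hz j).1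
    · rw [ih (by omega), trap_zero, mul_zero]
      · exact max_eq_left (hz j).1
      · have h1 : (j:ℝ) + 1 ≤ m := by exact_mod_cast (by omega : j + 1 ≤ m)
        have h3 := abs_le.1 ht
        have h4 : t - m * L ≤ -(L - R) := by nlinarith
        exact le_trans (by linarith) (le_trans (by linarith : L - R ≤ -(t - m * L)) (neg_le_abs _))

lemma blk_cont (R L : ℝ) (m : ℕ) (t : ℝ) : Continuous fun z : ℕ → ℝ => blk R L m z t := by
  induction m with
  | zero => exact continuous_const
  | succ m ih =>
    simp only [blk]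
    exact ih.max ((continuous_apply m).mul continuous_const)

end Pool.Agent.L5helper76.Fac
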